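import Pool.Agent.MWK.Stmts

/-!
# Row CUT: cut a word in front of the first new letter with a property
-/

namespace Pool.Agent.MWK.H51

open Pool.Agent.Helper14_MV Pool.Agent.Helper2_MV Pool.Agent.MWK

/-- **CUT** -/
theorem cut : CutStmt := by
  intro D A Q
  induction Q generalizing A with
  | nil => exact ⟨[], [], rfl, fun z hz => absurd hz List.not_mem_nil, Or.inl rfl⟩
  | cons t Q ih =>
    by_cases h : t ∉ A ∧ D t
    · refine ⟨[], t :: Q, rfl, fun z hz => absurd hz List.not_mem_nil, Or.inr ⟨t, Q, rfl, ?_, h.2⟩⟩
      rw [List.append_nil]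
      exact h.1
    · obtain ⟨q, R, h1, h2, h3⟩ := ih (A ++ [t])
      refine ⟨t :: q, R, by rw [h1]; rfl, ?_, ?_⟩
      · intro z hz hzA hD
        by_cases hzt : z = t
        · subst hzt
          exact h ⟨hzA, hD⟩
        · rcases List.mem_cons.1 hz with hz' | hz'
          · exact hzt hz'
          · apply h2 z hz' _ hD
            rw [List.mem_append, List.mem_singleton]
            rintro (h4 | h4)
            · exact hzA h4
            · exact hzt h4
      · rcases h3 with h3 | ⟨s, R', h4, h5, h6⟩
        · exact Or.inl h3
        · refine Or.inr ⟨s, R', h4, ?_, h6⟩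
          rw [List.append_assoc] at h5
          exact h5

end Pool.Agent.MWK.H51
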